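import Mathlib

set_option autoImplicit false
open MeasureTheory Filter Topology

/-!
An ergodic input for the two-server queue whose workload vector, started empty, does not converge in
total variation: long jobs (service `2 + c - c ∘ T`) alternate with short jobs (service `3/2`).
-/

namespace Pool.Agent.L7h99.GGm

noncomputable section

/-- the circle -/
abbrev X := UnitAddCircle

/-- rotation of the circle by `√2` -/
def T (x : X) : X := ((Real.sqrt 2 : ℝ) : X) + x

lemma ergT : Ergodic T (volume : Measure X) := by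
  have h := (AddCircle.ergodic_add_left (p := (1 : ℝ)) (a := ((Real.sqrt 2 : ℝ) : X))).2
  apply h
  rw [addOrderOf_eq_zero_iff']
  intro n hn h0
  rw [← AddCircle.coe_nsmul, AddCircle.coe_eq_zero_iff] at h0
  obtain ⟨m, hm⟩ := h0
  have h2 := irrational_sqrt_two
  apply h2
  refine ⟨(m : ℚ) / n, ?_⟩
  have hn' : (n : ℝ) ≠ 0 := by positivity
  push_cast
  rw [div_eq_iff hn']
  simp only [zsmul_eq_mul, mul_one, nsmul_eq_mul] at hm
  linarith

/-- coordinate in `[0,1)` -/
def u (x : X) : ℝ := (AddCircle.measurableEquivIco (1 : ℝ) 0 x : ℝ)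

lemma meas_u : Measurable u :=
  measurable_subtype_coe.comp (AddCircle.measurableEquivIco (1 : ℝ) 0).measurable

lemma u_nonneg (x : X) : 0 ≤ u x := (AddCircle.measurableEquivIco (1 : ℝ) 0 x).2.1

lemma u_lt_one (x : X) : u x < 1 := by
  have := (AddCircle.measurableEquivIco (1 : ℝ) 0 x).2.2
  simpa [u] using this

/-- level function -/
def k (x : X) : ℕ := ⌊u x / (1 - u x)⌋₊

lemma meas_k : Measurable k := by
  unfold k
  exact Nat.measurable_floor.comp (meas_u.div (measurable_const.sub meas_u))

lemma u_coe {r : ℝ} (h : r ∈ Set.Ico (0 : ℝ) (0 + 1)) : u (r : X) = r := by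
  unfold u
  have : (AddCircle.measurableEquivIco (1 : ℝ) 0) (r : X) = ⟨r, h⟩ := by
    have := AddCircle.equivIco_coe_eq (p := (1 : ℝ)) (a := 0) h
    exact this
  rw [this]

lemma pos_of_Ioo {a b : ℝ} (ha : 0 ≤ a) (hb : b ≤ 1) (hab : a < b) {s : Set X}
    (h : ∀ x, a < u x → u x < b → x ∈ s) : 0 < (volume : Measure X) s := by
  have h1 : IsOpen (((↑) : ℝ → X) '' Set.Ioo a b) :=
    QuotientAddGroup.isOpenMap_coe _ isOpen_Ioo
  have h2 : (((↑) : ℝ → X) '' Set.Ioo a b).Nonempty :=
    (Set.nonempty_Ioo.2 hab).image _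
  refine lt_of_lt_of_le (h1.measure_pos volume h2) (measure_mono ?_)
  rintro _ ⟨r, hr, rfl⟩
  have hu : u (r : X) = r := u_coe ⟨by linarith [hr.1], by linarith [hr.2]⟩
  apply h
  · rw [hu]; exact hr.1
  · rw [hu]; exact hr.2

lemma pos_k_zero : 0 < (volume : Measure X) {x | k x = 0} := by
  apply pos_of_Ioo (a := 0) (b := 1 / 2) le_rfl (by norm_num) (by norm_num)
  intro x h1 h2
  show ⌊u x / (1 - u x)⌋₊ = 0
  rw [Nat.floor_eq_zero, div_lt_one (by linarith)]
  linarith

lemma pos_k_gt (b : ℕ) : 0 < (volume : Measure X) {x | b < k x} := by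
  have hb : (0 : ℝ) < (b : ℝ) + 2 := by positivity
  apply pos_of_Ioo (a := 1 - 1 / ((b : ℝ) + 2)) (b := 1) _ le_rfl _
  · intro x h1 h2
    show b < ⌊u x / (1 - u x)⌋₊
    have h3 : (0 : ℝ) < 1 - u x := by linarith
    rw [Nat.lt_iff_add_one_le, Nat.le_floor_iff (div_nonneg (u_nonneg x) h3.le), le_div_iff₀ h3]
    push_cast
    have h4 : 1 - u x < 1 / ((b : ℝ) + 2) := by linarith
    rw [lt_div_iff₀ hb] at h4
    nlinarith
  · have : 1 / ((b : ℝ) + 2) ≤ 1 := by
      rw [div_le_one hb]; linarith [(Nat.cast_nonneg b : (0 : ℝ) ≤ b)]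
    linarith
  · have : 0 < 1 / ((b : ℝ) + 2) := by positivity
    linarith

/-- the heights -/
def g (b : ℕ) : ℝ := if b = 0 then 0 else 1 / 4 - 1 / (8 * (b : ℝ))

lemma g_zero : g 0 = 0 := by simp [g]

lemma g_lt (b : ℕ) : g b < 1 / 4 := by
  unfold g
  split_ifs with h
  · norm_num
  · have : (0 : ℝ) < b := by exact_mod_cast Nat.pos_of_ne_zero h
    have : 0 < 1 / (8 * (b : ℝ)) := by positivity
    linarith

lemma g_ge {b : ℕ} (h : b ≠ 0) : 1 / 8 ≤ g b := by
  unfold g
  rw [if_neg h]
  have h1 : (1 : ℝ) ≤ b := by exact_mod_cast Nat.one_le_iff_ne_zero.2 h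
  have : 1 / (8 * (b : ℝ)) ≤ 1 / 8 := by
    apply one_div_le_one_div_of_le <;> linarith
  linarith

lemma g_nonneg (b : ℕ) : 0 ≤ g b := by
  by_cases h : b = 0
  · rw [h, g_zero]
  · linarith [g_ge h]

lemma g_strictMono : StrictMono g := by
  apply strictMono_nat_of_lt_succ
  intro n
  rcases Nat.eq_zero_or_pos n with h | h
  · subst h
    rw [g_zero]
    linarith [g_ge (b := 0 + 1) (by norm_num)]
  · unfold g
    rw [if_neg (by omega), if_neg (by omega)]
    have h1 : (0 : ℝ) < n := by exact_mod_cast h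
    have : 1 / (8 * ((n + 1 : ℕ) : ℝ)) < 1 / (8 * (n : ℝ)) := by
      apply one_div_lt_one_div_of_lt
      · positivity
      · push_cast; linarith
    linarith

/-- running maximum of the levels -/
def K : ℕ → X → ℕ
  | 0, x => k x
  | j + 1, x => max (K j x) (k (T^[j + 1] x))

lemma meas_K (j : ℕ) : Measurable (K j) := by
  induction j with
  | zero => exact meas_k
  | succ j ih => exact ih.max (meas_k.comp (ergT.measurable.iterate (j + 1)))

lemma K_le_iff (j b : ℕ) (x : X) : K j x ≤ b ↔ ∀ i ≤ j, k (T^[i] x) ≤ b := by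
  induction j with
  | zero => simp [K]
  | succ j ih =>
    rw [K, max_le_iff, ih]
    constructor
    · rintro ⟨h1, h2⟩ i hi
      rcases Nat.lt_or_ge i (j + 1) with h | h
      · exact h1 i (by omega)
      · have : i = j + 1 := by omega
        rw [this]; exact h2
    · intro h
      exact ⟨fun i hi => h i (by omega), h _ le_rfl⟩

lemma tendsto_K (b : ℕ) :
    Tendsto (fun j => (volume : Measure X) {x | K j x ≤ b}) atTop (𝓝 0) := by
  have hm : ∀ j, MeasurableSet {x | K j x ≤ b} := fun j =>
    measurableSet_le (meas_K j) measurable_const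
  have hanti : Antitone (fun j => {x | K j x ≤ b}) := by
    intro i j hij x hx
    simp only [Set.mem_ofPred_eq, K_le_iff] at hx ⊢
    exact fun l hl => hx l (hl.trans hij)
  have h := tendsto_measure_iInter_atTop (μ := (volume : Measure X))
    (s := fun j => {x | K j x ≤ b}) (fun j => (hm j).nullMeasurableSet) hanti
    ⟨0, measure_ne_top _ _⟩
  set E : Set X := ⋂ j, {x | K j x ≤ b} with hE
  have hEm : MeasurableSet E := MeasurableSet.iInter hm
  have hmem : ∀ x, x ∈ E ↔ ∀ i, k (T^[i] x) ≤ b := by
    intro x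
    simp only [hE, Set.mem_iInter, Set.mem_ofPred_eq, K_le_iff]
    exact ⟨fun h i => h i i le_rfl, fun h j i _ => h i⟩
  have hsub : E ⊆ T ⁻¹' E := by
    intro x hx
    rw [Set.mem_preimage, hmem]
    intro i
    have := (hmem x).1 hx (i + 1)
    rwa [Function.iterate_succ_apply] at this
  have h0 : (volume : Measure X) E = 0 := by
    rcases ergT.ae_empty_or_univ_of_ae_le_preimage hEm.nullMeasurableSet
      (Eventually.of_forall hsub) with h1 | h1
    · rw [measure_congr h1, measure_empty]
    · exfalso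
      have h2 : (volume : Measure X) Eᶜ = 0 := by
        have := ae_eq_univ.1 h1
        exact this
      have h3 := pos_k_gt b
      have h4 : {x | b < k x} ⊆ Eᶜ := by
        intro x hx hx'
        have := (hmem x).1 hx' 0
        simp only [Function.iterate_zero, id_eq] at this
        exact absurd this (not_le.2 hx)
      exact absurd (measure_mono_null h4 h2) h3.ne'
  rw [h0] at h
  exact h

/-! ### the two-point tower -/

/-- the base space -/
abbrev Om := Bool × X

/-- the shift -/
def th : Om → Om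
  | (false, x) => (true, x)
  | (true, x) => (false, T x)

/-- the measure -/
def mu : Measure Om :=
  (1 / 2 : ENNReal) • (Measure.map (Prod.mk false) (volume : Measure X) +
    Measure.map (Prod.mk true) (volume : Measure X))

lemma meas_mk (b : Bool) : Measurable (Prod.mk b : X → Om) := measurable_prodMk_left

lemma mu_apply {s : Set Om} (hs : MeasurableSet s) :
    mu s = (1 / 2 : ENNReal) * ((volume : Measure X) {x | (false, x) ∈ s} +
      (volume : Measure X) {x | (true, x) ∈ s}) := by
  unfold mu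
  rw [Measure.smul_apply, Measure.add_apply, Measure.map_apply (meas_mk _) hs,
    Measure.map_apply (meas_mk _) hs, smul_eq_mul]
  rfl

instance : IsProbabilityMeasure mu := by
  constructor
  rw [mu_apply MeasurableSet.univ]
  have h1 : {x : X | (false, x) ∈ (Set.univ : Set Om)} = Set.univ := by ext; simp
  have h2 : {x : X | (true, x) ∈ (Set.univ : Set Om)} = Set.univ := by ext; simp
  rw [h1, h2, UnitAddCircle.measure_univ, one_add_one_eq_two]
  exact ENNReal.div_mul_cancel (by norm_num) (by norm_num)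

lemma meas_th : Measurable th := by
  apply measurable_from_prod_countable_right
  intro b
  cases b
  · exact meas_mk true
  · exact (meas_mk false).comp ergT.measurable

lemma mp_th : MeasurePreserving th mu mu := by
  refine ⟨meas_th, ?_⟩
  ext s hs
  rw [Measure.map_apply meas_th hs, mu_apply (meas_th hs), mu_apply hs]
  have h1 : {x : X | (false, x) ∈ th ⁻¹' s} = {x | (true, x) ∈ s} := rfl
  have h2 : {x : X | (true, x) ∈ th ⁻¹' s} = T ⁻¹' {x | (false, x) ∈ s} := rfl
  have h3 := ergT.toMeasurePreserving.measure_preimage (s := {x : X | (false, x) ∈ s})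
    (meas_mk false hs).nullMeasurableSet
  rw [h1, h2, h3, add_comm]

lemma erg_th : Ergodic th mu := by
  refine ⟨mp_th, ⟨?_⟩⟩
  intro s hs hinv
  have h1 : {x : X | (false, x) ∈ s} = {x | (true, x) ∈ s} := by
    ext x
    constructor
    · intro h
      rw [Set.mem_ofPred_eq, ← hinv] at h
      exact h
    · intro h
      rw [Set.mem_ofPred_eq, ← hinv]
      exact h
  have h2 : T ⁻¹' {x : X | (false, x) ∈ s} = {x | (false, x) ∈ s} := by
    conv_rhs => rw [h1]
    ext x
    constructor
    · intro h
      rw [Set.mem_ofPred_eq, ← hinv]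
      exact h
    · intro h
      rw [Set.mem_ofPred_eq, ← hinv] at h
      exact h
  rw [eventuallyConst_set']
  have hF : MeasurableSet {x : X | (false, x) ∈ s} := meas_mk false hs
  rcases ergT.toPreErgodic.ae_empty_or_univ hF h2 with h | h
  · left
    rw [ae_eq_empty, mu_apply hs, ← h1, ae_eq_empty.1 h]
    simp
  · right
    rw [ae_eq_univ, mu_apply hs.compl]
    have h3 := ae_eq_univ.1 h
    have h4 : {x : X | (false, x) ∈ sᶜ} = {x : X | (false, x) ∈ s}ᶜ := rfl
    have h5 : {x : X | (true, x) ∈ sᶜ} = {x : X | (false, x) ∈ s}ᶜ := by rw [h1]; rfl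
    rw [h4, h5, h3]
    simp

end

end Pool.Agent.L7h99.GGm
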