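import Pool.Agent.L7h99.GGm

set_option autoImplicit false
open MeasureTheory Filter Topology

namespace Pool.Agent.L7h99.GGm

noncomputable section

/-- service times -/
def sg : Om → ℝ
  | (false, x) => 2 + g (k x) - g (k (T x))
  | (true, _) => 3 / 2

/-- one step of the workload recursion, written as in the frozen statement -/
def step (w : Fin (1 + 1) → ℝ) (s t : ℝ) : Fin (1 + 1) → ℝ :=
  fun i : Fin (1 + 1) =>
    max ((w + (Pi.single 0 s : Fin (1 + 1) → ℝ) - (fun _ : Fin (1 + 1) => t))
      (Tuple.sort (w + (Pi.single 0 s : Fin (1 + 1) → ℝ) - (fun _ : Fin (1 + 1) => t)) i)) 0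

lemma sort_two (v : Fin (1 + 1) → ℝ) :
    v (Tuple.sort v 0) = min (v 0) (v 1) ∧ v (Tuple.sort v 1) = max (v 0) (v 1) := by
  have hm : v (Tuple.sort v 0) ≤ v (Tuple.sort v 1) := Tuple.monotone_sort v (by decide)
  have hne : Tuple.sort v 0 ≠ Tuple.sort v 1 := fun h => by
    have := (Tuple.sort v).injective h
    exact absurd this (by decide)
  have h01 : ∀ i : Fin (1 + 1), i = 0 ∨ i = 1 := by decide
  rcases h01 (Tuple.sort v 0) with h0 | h0 <;> rcases h01 (Tuple.sort v 1) with h1 | h1
  · exact absurd (h0.trans h1.symm) hne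
  · rw [h0, h1] at hm ⊢
    exact ⟨(min_eq_left hm).symm, (max_eq_right hm).symm⟩
  · rw [h0, h1] at hm ⊢
    exact ⟨(min_eq_right hm).symm, (max_eq_left hm).symm⟩
  · exact absurd (h0.trans h1.symm) hne

lemma step_zero (w : Fin (1 + 1) → ℝ) (s t : ℝ) :
    step w s t 0 = max (min (w 0 + s - t) (w 1 - t)) 0 := by
  have h := (sort_two (w + (Pi.single 0 s : Fin (1 + 1) → ℝ) - (fun _ : Fin (1 + 1) => t))).1
  show max ((w + (Pi.single 0 s : Fin (1 + 1) → ℝ) - (fun _ : Fin (1 + 1) => t))
      (Tuple.sort (w + (Pi.single 0 s : Fin (1 + 1) → ℝ) - (fun _ : Fin (1 + 1) => t)) 0)) 0 = _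
  rw [h]
  simp

lemma step_one (w : Fin (1 + 1) → ℝ) (s t : ℝ) :
    step w s t 1 = max (max (w 0 + s - t) (w 1 - t)) 0 := by
  have h := (sort_two (w + (Pi.single 0 s : Fin (1 + 1) → ℝ) - (fun _ : Fin (1 + 1) => t))).2
  show max ((w + (Pi.single 0 s : Fin (1 + 1) → ℝ) - (fun _ : Fin (1 + 1) => t))
      (Tuple.sort (w + (Pi.single 0 s : Fin (1 + 1) → ℝ) - (fun _ : Fin (1 + 1) => t)) 1)) 0 = _
  rw [h]
  simp

/-- the workload vectors -/
def W : ℕ → Om → (Fin (1 + 1) → ℝ)
  | 0, _ => 0
  | n + 1, ω => step (W n ω) (sg (th^[n] ω)) 1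

lemma th_iter_even (j : ℕ) (b : Bool) (x : X) : th^[2 * j] (b, x) = (b, T^[j] x) := by
  induction j generalizing x with
  | zero => rfl
  | succ j ih =>
    rw [show 2 * (j + 1) = 2 * j + 1 + 1 by ring, Function.iterate_succ_apply,
      Function.iterate_succ_apply, Function.iterate_succ_apply]
    cases b
    · exact ih (T x)
    · exact ih (T x)

lemma th_iter_odd_false (j : ℕ) (x : X) : th^[2 * j + 1] (false, x) = (true, T^[j] x) := by
  rw [Function.iterate_succ_apply', th_iter_even]; rfl

lemma th_iter_odd_true (j : ℕ) (x : X) : th^[2 * j + 1] (true, x) = (false, T^[j] (T x)) := by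
  rw [Function.iterate_succ_apply', th_iter_even]
  show (false, T (T^[j] x)) = _
  rw [← Function.iterate_succ_apply' T j x, Function.iterate_succ_apply]

/-- good vectors -/
def Good (w : Fin (1 + 1) → ℝ) (a : ℝ) : Prop := w 0 = a ∧ 0 ≤ w 1 ∧ w 1 ≤ 1 / 2

/-- a long job followed by a short job -/
lemma two_steps {w : Fin (1 + 1) → ℝ} {m c c' : ℕ} (hw : Good w (g m - g c)) (hcm : c ≤ m) :
    (step w (2 + g c - g c') 1) 0 = 0 ∧
    Good (step (step w (2 + g c - g c') 1) (3 / 2) 1) (g (max m c') - g c') := by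
  obtain ⟨h0, h1, h2⟩ := hw
  have hm := g_lt m
  have hc := g_lt c
  have hc' := g_lt c'
  have hm0 := g_nonneg m
  have hc0 := g_nonneg c
  have hc0' := g_nonneg c'
  have hle := g_strictMono.monotone hcm
  have e0 : step w (2 + g c - g c') 1 0 = 0 := by
    rw [step_zero, h0, max_eq_right]
    apply min_le_of_right_le
    linarith
  have e1 : step w (2 + g c - g c') 1 1 = 1 + g m - g c' := by
    rw [step_one, h0, max_eq_left, max_eq_left]
    · ring
    · linarith
    · apply le_max_of_le_left
      linarith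
  refine ⟨e0, ?_, ?_⟩
  · rw [step_zero, e0, e1, min_eq_right (by linarith)]
    have : (1 : ℝ) + g m - g c' - 1 = g m - g c' := by ring
    rw [this]
    rcases le_total m c' with h | h
    · rw [max_eq_right h, sub_self, max_eq_right]
      have := g_strictMono.monotone h
      linarith
    · rw [max_eq_left h, max_eq_left]
      have := g_strictMono.monotone h
      linarith
  · rw [step_one, e0, e1, max_eq_left (a := (0 : ℝ) + 3 / 2 - 1) (by linarith),
      max_eq_left (by norm_num)]
    norm_num

lemma k_le_K (j : ℕ) (x : X) : k (T^[j] x) ≤ K j x := (K_le_iff j _ x).1 le_rfl j le_rfl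

lemma W_false (j : ℕ) (x : X) :
    Good (W (2 * j) (false, x)) (g (K j x) - g (k (T^[j] x))) := by
  induction j with
  | zero => simp [W, Good, K]
  | succ j ih =>
    have h := (two_steps (c' := k (T^[j + 1] x)) ih (k_le_K j x)).2
    have e : W (2 * (j + 1)) (false, x) = step (step (W (2 * j) (false, x))
        (2 + g (k (T^[j] x)) - g (k (T^[j + 1] x))) 1) (3 / 2) 1 := by
      show step (step (W (2 * j) (false, x)) (sg (th^[2 * j] (false, x))) 1)
        (sg (th^[2 * j + 1] (false, x))) 1 = _
      rw [th_iter_even, th_iter_odd_false]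
      show step (step _ (2 + g (k (T^[j] x)) - g (k (T (T^[j] x)))) 1) (3 / 2) 1 = _
      rw [← Function.iterate_succ_apply' T j x]
    rw [e]
    exact h

lemma W_true (j : ℕ) (x : X) :
    Good (W (2 * j + 1) (true, x)) (g (K j (T x)) - g (k (T^[j] (T x)))) := by
  induction j with
  | zero =>
    show Good (step 0 (3 / 2) 1) _
    refine ⟨?_, ?_, ?_⟩
    · rw [step_zero]; simp [K]
    · rw [step_one]; norm_num
    · rw [step_one]; norm_num
  | succ j ih =>
    have h := (two_steps (c' := k (T^[j + 1] (T x))) ih (k_le_K j (T x))).2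
    have e : W (2 * (j + 1) + 1) (true, x) = step (step (W (2 * j + 1) (true, x))
        (2 + g (k (T^[j] (T x))) - g (k (T^[j + 1] (T x)))) 1) (3 / 2) 1 := by
      show step (step (W (2 * j + 1) (true, x)) (sg (th^[2 * j + 1] (true, x))) 1)
        (sg (th^[2 * (j + 1)] (true, x))) 1 = _
      rw [th_iter_even, th_iter_odd_true]
      show step (step _ (2 + g (k (T^[j] (T x))) - g (k (T (T^[j] (T x))))) 1) (3 / 2) 1 = _
      rw [← Function.iterate_succ_apply' T j (T x)]
    rw [e]
    exact h

lemma W_true_even (j : ℕ) (x : X) : W (2 * j) (true, x) 0 = 0 := by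
  rcases Nat.eq_zero_or_pos j with h | h
  · subst h; rfl
  · obtain ⟨i, rfl⟩ : ∃ i, j = i + 1 := ⟨j - 1, by omega⟩
    have h := (two_steps (c' := k (T^[i + 1] (T x))) (W_true i x) (k_le_K i (T x))).1
    have e : W (2 * (i + 1)) (true, x) = step (W (2 * i + 1) (true, x))
        (2 + g (k (T^[i] (T x))) - g (k (T^[i + 1] (T x)))) 1 := by
      show step (W (2 * i + 1) (true, x)) (sg (th^[2 * i + 1] (true, x))) 1 = _
      rw [th_iter_odd_true]
      show step _ (2 + g (k (T^[i] (T x))) - g (k (T (T^[i] (T x))))) 1 = _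
      rw [← Function.iterate_succ_apply' T i (T x)]
    rw [e]
    exact h

/-- the first coordinate equals `g b`, `b ≥ 1` -/
lemma event_iff {b : ℕ} (hb : b ≠ 0) (j : ℕ) (x : X) :
    W (2 * j) (false, x) 0 = g b ↔ k (T^[j] x) = 0 ∧ K j x = b := by
  rw [(W_false j x).1]
  constructor
  · intro h
    by_cases h0 : k (T^[j] x) = 0
    · rw [h0, g_zero, sub_zero] at h
      exact ⟨h0, g_strictMono.injective h⟩
    · exfalso
      have h1 := g_ge h0
      have h2 := g_lt (K j x)
      have h3 := g_ge hb
      linarith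
  · rintro ⟨h1, h2⟩
    rw [h1, h2, g_zero, sub_zero]

lemma event_true {b : ℕ} (hb : b ≠ 0) (j : ℕ) (x : X) : ¬ W (2 * j) (true, x) 0 = g b := by
  rw [W_true_even]
  have := g_ge hb
  intro h
  linarith

lemma meas_sg : Measurable sg := by
  apply measurable_from_prod_countable_right
  intro b
  cases b
  · show Measurable fun x : X => 2 + g (k x) - g (k (T x))
    have hg : Measurable g := measurable_from_nat
    exact (measurable_const.add (hg.comp meas_k)).sub
      (hg.comp (meas_k.comp ergT.measurable))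
  · exact measurable_const

lemma sg_nonneg (ω : Om) : 0 ≤ sg ω := by
  obtain ⟨b, x⟩ := ω
  cases b
  · show 0 ≤ 2 + g (k x) - g (k (T x))
    linarith [g_nonneg (k x), g_lt (k (T x))]
  · show (0 : ℝ) ≤ 3 / 2
    norm_num

lemma sg_le (ω : Om) : sg ω ≤ 3 := by
  obtain ⟨b, x⟩ := ω
  cases b
  · show 2 + g (k x) - g (k (T x)) ≤ 3
    linarith [g_nonneg (k (T x)), g_lt (k x)]
  · show (3 : ℝ) / 2 ≤ 3
    norm_num

lemma int_sg : Integrable sg mu := by
  refine Integrable.mono' (integrable_const (3 : ℝ)) meas_sg.aestronglyMeasurable ?_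
  refine Eventually.of_forall fun ω => ?_
  rw [Real.norm_eq_abs, abs_of_nonneg (sg_nonneg ω)]
  exact sg_le ω

lemma vol_real : (volume : Measure X).real Set.univ = 1 := by
  rw [Measure.real, UnitAddCircle.measure_univ]; simp

lemma meas_g : Measurable g := measurable_from_nat

lemma int_gk : Integrable (fun x : X => g (k x)) (volume : Measure X) := by
  refine Integrable.mono' (integrable_const (1 : ℝ)) (meas_g.comp meas_k).aestronglyMeasurable ?_
  refine Eventually.of_forall fun x => ?_
  rw [Real.norm_eq_abs, abs_of_nonneg (g_nonneg _)]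
  linarith [g_lt (k x)]

lemma int_gkT : Integrable (fun x : X => g (k (T x))) (volume : Measure X) := by
  refine Integrable.mono' (integrable_const (1 : ℝ))
    (meas_g.comp (meas_k.comp ergT.measurable)).aestronglyMeasurable ?_
  refine Eventually.of_forall fun x => ?_
  rw [Real.norm_eq_abs, abs_of_nonneg (g_nonneg _)]
  linarith [g_lt (k (T x))]

lemma integral_gkT :
    ∫ x, g (k (T x)) ∂(volume : Measure X) = ∫ x, g (k x) ∂(volume : Measure X) := by
  have h := integral_map (μ := (volume : Measure X)) ergT.measurable.aemeasurable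
    (f := fun x : X => g (k x)) (meas_g.comp meas_k).aestronglyMeasurable
  rw [ergT.toMeasurePreserving.map_eq] at h
  exact h.symm

lemma e_false : ∫ x, sg (false, x) ∂(volume : Measure X) = 2 := by
  have h0 : (fun x : X => sg (false, x)) = fun x => (2 + g (k x)) - g (k (T x)) := rfl
  have h1 : Integrable (fun x : X => 2 + g (k x)) (volume : Measure X) :=
    (integrable_const _).add int_gk
  rw [h0, integral_sub h1 int_gkT, integral_add (integrable_const _) int_gk,
    integral_gkT, integral_const, vol_real]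
  simp

lemma e_true : ∫ x, sg (true, x) ∂(volume : Measure X) = 3 / 2 := by
  have h0 : (fun x : X => sg (true, x)) = fun _ => (3 / 2 : ℝ) := rfl
  rw [h0, integral_const, vol_real]
  simp

lemma int_sg_map (b : Bool) : Integrable sg (Measure.map (Prod.mk b) (volume : Measure X)) := by
  have : IsProbabilityMeasure (Measure.map (Prod.mk b) (volume : Measure X)) := by
    have : IsProbabilityMeasure (volume : Measure X) := ⟨UnitAddCircle.measure_univ⟩
    exact Measure.isProbabilityMeasure_map (meas_mk b).aemeasurable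
  refine Integrable.mono' (integrable_const (3 : ℝ)) meas_sg.aestronglyMeasurable ?_
  refine Eventually.of_forall fun ω => ?_
  rw [Real.norm_eq_abs, abs_of_nonneg (sg_nonneg ω)]
  exact sg_le ω

lemma integral_sg : ∫ ω, sg ω ∂mu = 7 / 4 := by
  have h1 : ∫ ω, sg ω ∂(Measure.map (Prod.mk false) (volume : Measure X)) = 2 := by
    rw [integral_map (meas_mk _).aemeasurable meas_sg.aestronglyMeasurable]
    exact e_false
  have h2 : ∫ ω, sg ω ∂(Measure.map (Prod.mk true) (volume : Measure X)) = 3 / 2 := by
    rw [integral_map (meas_mk _).aemeasurable meas_sg.aestronglyMeasurable]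
    exact e_true
  rw [mu, integral_smul_measure, integral_add_measure (int_sg_map _) (int_sg_map _), h1, h2]
  rw [ENNReal.toReal_div, smul_eq_mul]
  norm_num

end

end Pool.Agent.L7h99.GGm
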